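import Mathlib

set_option autoImplicit false

namespace Pool.Agent.TH206.VNC

open MvPowerSeries

variable (K : Type) [Field K]

/-- power series in one variable -/
abbrev A := MvPowerSeries (Fin 1) K
/-- power series in two variables -/
abbrev B := MvPowerSeries (Fin 2) K

/-- The fibre product `A ×_K B` -/
noncomputable def Rg : Subalgebra K (A K × B K) where
  carrier := {p | constantCoeff p.1 = constantCoeff p.2}
  mul_mem' := by
    intro a b ha hb
    simp only [Set.mem_ofPred_eq, Prod.fst_mul, Prod.snd_mul, map_mul] at *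
    rw [ha, hb]
  add_mem' := by
    intro a b ha hb
    simp only [Set.mem_ofPred_eq, Prod.fst_add, Prod.snd_add, map_add] at *
    rw [ha, hb]
  algebraMap_mem' := by
    intro r
    simp only [Set.mem_ofPred_eq, Prod.algebraMap_apply, MvPowerSeries.algebraMap_apply]
    simp

variable {K}

lemma mem_Rg {p : A K × B K} : p ∈ Rg K ↔ constantCoeff p.1 = constantCoeff p.2 := Iff.rfl

/-- first projection -/
noncomputable def fA : Rg K →ₐ[K] A K := (AlgHom.fst K _ _).comp (Rg K).val
/-- second projection -/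
noncomputable def fB : Rg K →ₐ[K] B K := (AlgHom.snd K _ _).comp (Rg K).val

lemma fA_apply (p : Rg K) : fA p = p.1.1 := rfl
lemma fB_apply (p : Rg K) : fB p = p.1.2 := rfl

lemma const_eq (p : Rg K) : constantCoeff (fA p) = constantCoeff (fB p) := p.2

lemma ext_Rg {p q : Rg K} (h1 : fA p = fA q) (h2 : fB p = fB q) : p = q :=
  Subtype.ext (Prod.ext h1 h2)

/-- constructor -/
noncomputable def mk (f : A K) (g : B K) (h : constantCoeff f = constantCoeff g) : Rg K := ⟨(f, g), h⟩

@[simp] lemma fA_mk (f : A K) (g : B K) (h : constantCoeff f = constantCoeff g) :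
    fA (mk f g h) = f := rfl
@[simp] lemma fB_mk (f : A K) (g : B K) (h : constantCoeff f = constantCoeff g) :
    fB (mk f g h) = g := rfl

/-- lift from `A` -/
noncomputable def lA (f : A K) : Rg K := mk f (C (constantCoeff f)) (by simp)
/-- lift from `B` -/
noncomputable def lB (g : B K) : Rg K := mk (C (constantCoeff g)) g (by simp)

@[simp] lemma fA_lA (f : A K) : fA (lA f) = f := rfl
@[simp] lemma fB_lB (f : B K) : fB (lB f) = f := rfl
@[simp] lemma fB_lA (f : A K) : fB (lA f) = C (constantCoeff f) := rfl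
@[simp] lemma fA_lB (f : B K) : fA (lB f) = C (constantCoeff f) := rfl

lemma fA_surj : Function.Surjective (fA (K := K)) := fun f => ⟨lA f, rfl⟩
lemma fB_surj : Function.Surjective (fB (K := K)) := fun f => ⟨lB f, rfl⟩

/-- the filtration by order -/
noncomputable def F (n : ℕ) : Ideal (Rg K) where
  carrier := {p | (n : ℕ∞) ≤ (fA p).order ∧ (n : ℕ∞) ≤ (fB p).order}
  add_mem' := by
    rintro a b ⟨h1, h2⟩ ⟨h3, h4⟩
    refine ⟨?_, ?_⟩
    · rw [map_add]; exact (le_min h1 h3).trans min_order_le_add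
    · rw [map_add]; exact (le_min h2 h4).trans min_order_le_add
  zero_mem' := by
    refine ⟨?_, ?_⟩ <;> simp
  smul_mem' := by
    rintro a b ⟨h1, h2⟩
    refine ⟨?_, ?_⟩
    · rw [smul_eq_mul, map_mul]; exact (h1.trans le_add_self).trans le_order_mul
    · rw [smul_eq_mul, map_mul]; exact (h2.trans le_add_self).trans le_order_mul

lemma mem_F {n : ℕ} {p : Rg K} :
    p ∈ F (K := K) n ↔ (n : ℕ∞) ≤ (fA p).order ∧ (n : ℕ∞) ≤ (fB p).order := Iff.rfl

lemma F_zero : F (K := K) 0 = ⊤ := by
  rw [eq_top_iff]; intro p _; rw [mem_F]; simp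

lemma F_mul {i j : ℕ} : F (K := K) i * F j ≤ F (i + j) := by
  rw [Ideal.mul_le]
  intro a ha b hb
  rw [mem_F] at *
  rw [map_mul, map_mul]
  push_cast
  exact ⟨(add_le_add ha.1 hb.1).trans le_order_mul, (add_le_add ha.2 hb.2).trans le_order_mul⟩

lemma isUnit_of_const {p : Rg K} (h : constantCoeff (fA p) ≠ 0) : IsUnit p := by
  have h' : constantCoeff (fB p) ≠ 0 := by rwa [← const_eq]
  refine IsUnit.of_mul_eq_one (mk (fA p)⁻¹ (fB p)⁻¹ ?_) ?_
  · rw [constantCoeff_inv, constantCoeff_inv, const_eq]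
  · apply ext_Rg
    · rw [map_mul, fA_mk, MvPowerSeries.mul_inv_cancel _ h, map_one]
    · rw [map_mul, fB_mk, MvPowerSeries.mul_inv_cancel _ h', map_one]

instance : Nontrivial (Rg K) := inferInstance

instance : IsLocalRing (Rg K) := by
  apply IsLocalRing.of_isUnit_or_isUnit_one_sub_self
  intro p
  by_cases h : constantCoeff (fA p) = 0
  · right
    apply isUnit_of_const
    rw [map_sub, map_sub, h]; simp
  · left; exact isUnit_of_const h

lemma maxIdeal_eq : IsLocalRing.maximalIdeal (Rg K) = F 1 := by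
  ext p
  rw [IsLocalRing.mem_maximalIdeal, mem_nonunits_iff, mem_F]
  constructor
  · intro h
    have h1 : constantCoeff (fA p) = 0 := by
      by_contra hc
      exact h (isUnit_of_const hc)
    have h2 : constantCoeff (fB p) = 0 := by rw [← const_eq]; exact h1
    exact ⟨by rw [Nat.cast_one, one_le_order_iff_constCoeff_eq_zero]; exact h1,
      by rw [Nat.cast_one, one_le_order_iff_constCoeff_eq_zero]; exact h2⟩
  · rintro ⟨h, -⟩ hu
    rw [Nat.cast_one, one_le_order_iff_constCoeff_eq_zero] at h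
    have := hu.map (constantCoeff.comp (fA (K := K)).toRingHom)
    change IsUnit (constantCoeff (fA p)) at this
    rw [h] at this
    exact not_isUnit_zero this

/-- generators of the maximal ideal -/
noncomputable def gen : Fin 3 → Rg K :=
  ![mk (X 0) 0 (by simp), mk 0 (X 0) (by simp), mk 0 (X 1) (by simp)]

lemma lA_mem {n : ℕ} {f : A K} (h : (n : ℕ∞) ≤ f.order) : lA f ∈ F (K := K) n := by
  rw [mem_F]
  refine ⟨by simpa using h, ?_⟩
  rcases Nat.eq_zero_or_pos n with rfl | hn
  · simp
  · have : constantCoeff f = 0 := by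
      rw [← one_le_order_iff_constCoeff_eq_zero]
      exact le_trans (by exact_mod_cast hn) h
    rw [fB_lA, this]; simp

lemma lB_mem {n : ℕ} {f : B K} (h : (n : ℕ∞) ≤ f.order) : lB f ∈ F (K := K) n := by
  rw [mem_F]
  refine ⟨?_, by simpa using h⟩
  rcases Nat.eq_zero_or_pos n with rfl | hn
  · simp
  · have : constantCoeff f = 0 := by
      rw [← one_le_order_iff_constCoeff_eq_zero]
      exact le_trans (by exact_mod_cast hn) h
    rw [fA_lB, this]; simp

lemma order_X_mul {s : ℕ} (i : Fin s) (f : MvPowerSeries (Fin s) K) :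
    (X i * f).order = 1 + f.order := by
  rw [order_mul]
  congr 1
  rw [X, order_monomial_of_ne_zero one_ne_zero]
  simp

lemma decompA {n : ℕ} {f : A K} (h : ((n + 1 : ℕ) : ℕ∞) ≤ f.order) :
    ∃ g : A K, f = X 0 * g ∧ (n : ℕ∞) ≤ g.order := by
  have hd : (X 0 : A K) ∣ f := by
    rw [X_dvd_iff]
    intro m hm
    apply coeff_of_lt_order
    refine lt_of_lt_of_le ?_ h
    have : m = 0 := Finsupp.ext fun i => by
      fin_cases i; simpa using hm
    subst this
    simp
  obtain ⟨g, rfl⟩ := hd
  refine ⟨g, rfl, ?_⟩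
  rw [order_X_mul] at h
  push_cast at h
  rw [add_comm] at h
  exact (ENat.add_le_add_iff_left (by simp)).mp h

lemma decompB {n : ℕ} {f : B K} (h : ((n + 1 : ℕ) : ℕ∞) ≤ f.order) :
    ∃ g g' : B K, f = X 0 * g + X 1 * g' ∧ (n : ℕ∞) ≤ g.order ∧ (n : ℕ∞) ≤ g'.order := by
  classical
  let f1 : B K := fun m => if m 0 = 0 then 0 else coeff m f
  let f2 : B K := fun m => if m 0 = 0 then coeff m f else 0
  have c1 : ∀ m, coeff m f1 = if m 0 = 0 then 0 else coeff m f := fun m => rfl
  have c2 : ∀ m, coeff m f2 = if m 0 = 0 then coeff m f else 0 := fun m => rfl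
  have hf : f = f1 + f2 := by
    ext m
    rw [map_add, c1, c2]
    by_cases hm : m 0 = 0 <;> simp [hm]
  have o1 : ((n + 1 : ℕ) : ℕ∞) ≤ f1.order := by
    apply nat_le_order
    intro d hd
    rw [c1]
    split_ifs
    · rfl
    · apply coeff_of_lt_order
      refine lt_of_lt_of_le ?_ h
      exact_mod_cast hd
  have o2 : ((n + 1 : ℕ) : ℕ∞) ≤ f2.order := by
    apply nat_le_order
    intro d hd
    rw [c2]
    split_ifs
    · apply coeff_of_lt_order
      refine lt_of_lt_of_le ?_ h
      exact_mod_cast hd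
    · rfl
  have d1 : (X 0 : B K) ∣ f1 := by
    rw [X_dvd_iff]
    intro m hm
    rw [c1, if_pos hm]
  have d2 : (X 1 : B K) ∣ f2 := by
    rw [X_dvd_iff]
    intro m hm
    rw [c2]
    split_ifs with h0
    · apply coeff_of_lt_order
      refine lt_of_lt_of_le ?_ h
      have : m = 0 := Finsupp.ext fun i => by
        fin_cases i
        · simpa using h0
        · simpa using hm
      subst this
      simp
    · rfl
  obtain ⟨g, hg⟩ := d1
  obtain ⟨g', hg'⟩ := d2
  refine ⟨g, g', by rw [hf, hg, hg'], ?_, ?_⟩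
  · rw [hg, order_X_mul] at o1
    push_cast at o1
    rw [add_comm] at o1
    exact (ENat.add_le_add_iff_left (by simp)).mp o1
  · rw [hg', order_X_mul] at o2
    push_cast at o2
    rw [add_comm] at o2
    exact (ENat.add_le_add_iff_left (by simp)).mp o2

lemma F_succ_le (n : ℕ) : F (K := K) (n + 1) ≤ Ideal.span (Set.range gen) * F n := by
  intro p hp
  rw [mem_F] at hp
  obtain ⟨f, hf, of⟩ := decompA hp.1
  obtain ⟨g, g', hg, og, og'⟩ := decompB hp.2
  have hp' : p = gen 0 * lA f + gen 1 * lB g + gen 2 * lB g' := by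
    apply ext_Rg
    · simp only [map_add, map_mul, fA_lA, fA_lB]
      change fA p = X 0 * f + 0 * _ + 0 * _
      rw [hf]; ring
    · simp only [map_add, map_mul, fB_lA, fB_lB]
      change fB p = 0 * _ + X 0 * g + X 1 * g'
      rw [hg]; ring
  rw [hp']
  have hs : ∀ i, gen (K := K) i ∈ Ideal.span (Set.range (gen (K := K))) :=
    fun i => Ideal.subset_span ⟨i, rfl⟩
  exact add_mem (add_mem (Ideal.mul_mem_mul (hs 0) (lA_mem of)) (Ideal.mul_mem_mul (hs 1) (lB_mem og)))
    (Ideal.mul_mem_mul (hs 2) (lB_mem og'))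

lemma gen_mem (i : Fin 3) : gen (K := K) i ∈ F (K := K) 1 := by
  rw [mem_F, Nat.cast_one, one_le_order_iff_constCoeff_eq_zero, one_le_order_iff_constCoeff_eq_zero,
    ← const_eq, and_self]
  fin_cases i
  · change constantCoeff (X 0 : A K) = 0; simp
  · change constantCoeff (0 : A K) = 0; simp
  · change constantCoeff (0 : A K) = 0; simp

lemma span_gen : Ideal.span (Set.range (gen (K := K))) = F 1 := by
  apply le_antisymm
  · rw [Ideal.span_le]
    rintro _ ⟨i, rfl⟩
    exact gen_mem i
  · have := F_succ_le (K := K) 0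
    rw [F_zero, Ideal.mul_top] at this
    exact this

lemma pow_eq (n : ℕ) : IsLocalRing.maximalIdeal (Rg K) ^ n = F n := by
  rw [maxIdeal_eq]
  induction n with
  | zero => rw [pow_zero, F_zero, Ideal.one_eq_top]
  | succ n ih =>
    rw [pow_succ, ih]
    apply le_antisymm F_mul
    rw [mul_comm]
    conv_rhs => rw [← span_gen]
    exact F_succ_le n

end Pool.Agent.TH206.VNC
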