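import Mathlib
import Pool.Agent.TH206.VNC.Ring
import Pool.Agent.TH206.Lech.Power

set_option autoImplicit false

namespace Pool.Agent.TH206.VNC

open MvPowerSeries

variable {K : Type} [Field K]

/-! ### Noetherian -/

lemma noeth_surj {R S : Type} [CommRing R] [CommRing S] [Algebra R S] [IsNoetherianRing S]
    (h : Function.Surjective (algebraMap R S)) : IsNoetherian R S := by
  have : RingHomSurjective (algebraMap R S) := ⟨h⟩
  let f : S →ₛₗ[algebraMap R S] S := ⟨AddHom.id S, by intro m x; simp [Algebra.smul_def]⟩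
  exact (LinearMap.isNoetherian_iff_of_bijective f Function.bijective_id).mpr inferInstance

lemma noeth_two {R S T : Type} [CommRing R] [CommRing S] [CommRing T] [IsNoetherianRing S]
    [IsNoetherianRing T] (f : R →+* S) (g : R →+* T) (hf : Function.Surjective f)
    (hg : Function.Surjective g) (hi : ∀ p q, f p = f q → g p = g q → p = q) :
    IsNoetherianRing R := by
  let aA : Algebra R S := f.toAlgebra
  let aB : Algebra R T := g.toAlgebra
  have nA : IsNoetherian R S := noeth_surj hf
  have nB : IsNoetherian R T := noeth_surj hg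
  let F : R →ₗ[R] (S × T) := (Algebra.linearMap R S).prod (Algebra.linearMap R T)
  refine isNoetherian_of_injective F ?_
  intro p q hpq
  exact hi p q (congrArg Prod.fst hpq) (congrArg Prod.snd hpq)

instance : IsNoetherianRing (Rg K) :=
  noeth_two (fA (K := K)).toRingHom (fB (K := K)).toRingHom fA_surj fB_surj
    (fun _ _ h1 h2 => ext_Rg h1 h2)

/-! ### Krull dimension -/

lemma dimB : (2 : WithBot ℕ∞) ≤ ringKrullDim (B K) := by
  have e1 := ringKrullDim_eq_of_ringEquiv (MvPowerSeries.finSuccEquiv K 1).toRingEquiv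
  have e2 := ringKrullDim_eq_of_ringEquiv (MvPowerSeries.finSuccEquiv K 0).toRingEquiv
  have h1 := ringKrullDim_succ_le_ringKrullDim_powerseries (R := MvPowerSeries (Fin 1) K)
  have h2 := ringKrullDim_succ_le_ringKrullDim_powerseries (R := MvPowerSeries (Fin 0) K)
  have h3 : (0 : WithBot ℕ∞) ≤ ringKrullDim (MvPowerSeries (Fin 0) K) := ringKrullDim_nonneg_of_nontrivial
  change ringKrullDim (B K) = _ at e1
  rw [e1]
  refine le_trans ?_ h1
  have h4 : (1 : WithBot ℕ∞) ≤ ringKrullDim (MvPowerSeries (Fin 1) K) := by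
    refine le_trans ?_ (h2.trans (ge_of_eq e2))
    calc (1 : WithBot ℕ∞) = 0 + 1 := by norm_num
      _ ≤ _ := by gcongr
  calc (2 : WithBot ℕ∞) = 1 + 1 := by norm_num
    _ ≤ _ := by gcongr

lemma dim_ge : (2 : WithBot ℕ∞) ≤ ringKrullDim (Rg K) :=
  dimB.trans (ringKrullDim_le_of_surjective (fB (K := K)).toRingHom fB_surj)

lemma dim_le : ringKrullDim (Rg K) ≤ (3 : WithBot ℕ∞) := by
  rw [← IsLocalRing.maximalIdeal_height_eq_ringKrullDim]
  have h1 : (IsLocalRing.maximalIdeal (Rg K)).height ≤ 3 := by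
    have h2 : IsLocalRing.maximalIdeal (Rg K) ∈
        (Ideal.span (Set.range (gen (K := K)))).minimalPrimes := by
      rw [span_gen, ← maxIdeal_eq]
      rw [Ideal.minimalPrimes_eq_subsingleton_self]
      rfl
    refine (Ideal.height_le_card_of_mem_minimalPrimes_span (Set.finite_range _) h2).trans ?_
    have : (Set.range (gen (K := K))).ncard ≤ 3 := by
      rw [← Set.image_univ]
      refine (Set.ncard_image_le Set.finite_univ).trans ?_
      simp
    exact_mod_cast this
  exact WithBot.coe_le_coe.mpr h1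

lemma dim_cases : ringKrullDim (Rg K) = ((2 : ℕ) : WithBot ℕ∞) ∨
    ringKrullDim (Rg K) = ((3 : ℕ) : WithBot ℕ∞) := by
  have h1 := dim_ge (K := K)
  have h2 := dim_le (K := K)
  rw [← IsLocalRing.maximalIdeal_height_eq_ringKrullDim] at *
  generalize (IsLocalRing.maximalIdeal (Rg K)).height = h at *
  have h1' : (2 : ℕ∞) ≤ h := WithBot.coe_le_coe.mp h1
  have h2' : h ≤ (3 : ℕ∞) := WithBot.coe_le_coe.mp h2
  lift h to ℕ using ne_top_of_le_ne_top (by simp) h2'
  have h3 : 2 ≤ h := by exact_mod_cast h1'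
  have h4 : h ≤ 3 := by exact_mod_cast h2'
  interval_cases h
  · left; rfl
  · right; rfl

/-! ### integral closure -/

lemma order_pow' {s : ℕ} (f : MvPowerSeries (Fin s) K) (k : ℕ) : (f ^ k).order = k * f.order := by
  induction k with
  | zero =>
    rw [pow_zero, Nat.cast_zero, zero_mul]
    exact weightedOrder_one _
  | succ k ih =>
    rw [pow_succ, order_mul, ih]
    push_cast
    ring

lemma order_sum_ge {s : ℕ} {ι : Type} (T : Finset ι) (g : ι → MvPowerSeries (Fin s) K) (m : ℕ∞)
    (h : ∀ i ∈ T, m ≤ (g i).order) : m ≤ (∑ i ∈ T, g i).order := by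
  classical
  induction T using Finset.induction_on with
  | empty => simp
  | insert a T ha ih =>
    rw [Finset.sum_insert ha]
    refine le_trans (le_min (h a (by simp)) (ih fun i hi => h i (by simp [hi]))) min_order_le_add

lemma integral_order {s : ℕ} (n k : ℕ) (x : MvPowerSeries (Fin s) K)
    (a : ℕ → MvPowerSeries (Fin s) K) (ha : ∀ j, ((n * j : ℕ) : ℕ∞) ≤ (a j).order)
    (h : x ^ k + ∑ j ∈ Finset.range k, a (k - j) * x ^ j = 0) : (n : ℕ∞) ≤ x.order := by
  by_contra hlt
  rw [not_le] at hlt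
  obtain ⟨t, ht⟩ := ENat.ne_top_iff_exists.mp (ne_top_of_lt hlt)
  rw [← ht] at hlt
  have hlt' : t < n := by exact_mod_cast hlt
  have h1 : (x ^ k).order = ((k * t : ℕ) : ℕ∞) := by
    rw [order_pow', ← ht]; push_cast; rfl
  have h2 : ((k * t + 1 : ℕ) : ℕ∞) ≤ (∑ j ∈ Finset.range k, a (k - j) * x ^ j).order := by
    apply order_sum_ge
    intro j hj
    rw [Finset.mem_range] at hj
    rw [order_mul, order_pow', ← ht]
    have h3 : ((k * t + 1 : ℕ) : ℕ∞) ≤ ((n * (k - j) : ℕ) : ℕ∞) + ((j * t : ℕ) : ℕ∞) := by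
      rw [← Nat.cast_add, Nat.cast_le]
      obtain ⟨l, rfl⟩ : ∃ l, k = j + (l + 1) := ⟨k - j - 1, by omega⟩
      rw [show j + (l + 1) - j = l + 1 by omega]
      nlinarith
    refine h3.trans ?_
    push_cast
    exact add_le_add_left (by exact_mod_cast ha (k - j)) _
  rw [add_eq_zero_iff_eq_neg] at h
  have h4 : (x ^ k).order = (∑ j ∈ Finset.range k, a (k - j) * x ^ j).order := by
    rw [h, order_neg]
  rw [← h4, h1, Nat.cast_le] at h2
  omega

lemma mem_F_iff (n : ℕ) (x : Rg K) : x ∈ F (K := K) n ↔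
    ∃ k : ℕ, 0 < k ∧ ∃ a : ℕ → Rg K,
      (∀ j, a j ∈ ((IsLocalRing.maximalIdeal (Rg K)) ^ n) ^ j) ∧
        x ^ k + ∑ j ∈ Finset.range k, a (k - j) * x ^ j = 0 := by
  constructor
  · intro hx
    refine ⟨1, one_pos, fun j => if j = 1 then -x else 0, ?_, ?_⟩
    · intro j
      by_cases hj : j = 1
      · subst hj
        rw [pow_one, pow_eq]
        simpa using hx
      · simp [hj]
    · simp
  · rintro ⟨k, hk, a, ha, h⟩
    have ha' : ∀ j, a j ∈ F (K := K) (n * j) := by
      intro j
      have := ha j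
      rwa [← pow_mul, pow_eq] at this
    rw [mem_F]
    constructor
    · apply integral_order n k (fA x) (fun j => fA (a j)) (fun j => (mem_F.mp (ha' j)).1)
      have := congrArg (fA (K := K)) h
      simpa [map_add, map_sum, map_mul, map_pow] using this
    · apply integral_order n k (fB x) (fun j => fB (a j)) (fun j => (mem_F.mp (ha' j)).2)
      have := congrArg (fB (K := K)) h
      simpa [map_add, map_sum, map_mul, map_pow] using this

/-! ### completion reduced -/

lemma sq_mem {n : ℕ} {x : Rg K} (h : x * x ∈ F (K := K) (2 * n)) : x ∈ F (K := K) n := by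
  have key : ∀ y : ℕ∞, ((2 * n : ℕ) : ℕ∞) ≤ y + y → (n : ℕ∞) ≤ y := by
    intro y hy
    by_contra hlt
    rw [not_le] at hlt
    obtain ⟨t, rfl⟩ := ENat.ne_top_iff_exists.mp (ne_top_of_lt hlt)
    have h1 : t < n := by exact_mod_cast hlt
    have h2 : 2 * n ≤ t + t := by exact_mod_cast hy
    omega
  rw [mem_F] at *
  rw [map_mul, map_mul, order_mul, order_mul] at h
  exact ⟨key _ h.1, key _ h.2⟩

instance : IsReduced (AdicCompletion (IsLocalRing.maximalIdeal (Rg K)) (Rg K)) := by
  rw [isReduced_iff_pow_one_lt 2 one_lt_two]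
  intro x hx
  obtain ⟨s, rfl⟩ := AdicCompletion.mk_surjective _ _ x
  apply AdicCompletion.ext_evalₐ
  intro n
  have h0 := congrArg (AdicCompletion.evalₐ (IsLocalRing.maximalIdeal (Rg K)) (2 * n)) hx
  rw [map_pow, AdicCompletion.evalₐ_mk, map_zero, ← map_pow, Ideal.Quotient.eq_zero_iff_mem,
    pow_eq, pow_two] at h0
  have h2 := sq_mem h0
  have h3 := AdicCompletion.Ideal.mk_eq_mk (IsLocalRing.maximalIdeal (Rg K)) (m := n)
    (n := 2 * n) (by omega) s
  rw [AdicCompletion.evalₐ_mk, map_zero]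
  refine h3.symm.trans ?_
  rw [Ideal.Quotient.eq_zero_iff_mem, pow_eq]
  exact h2

end Pool.Agent.TH206.VNC
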