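import Mathlib
import Pool.Agent.TH206.VNC.Props

set_option autoImplicit false

namespace Pool.Agent.TH206.VNC

open MvPowerSeries

variable {K : Type} [Field K]

/-- index set for monomials of degree `≤ n` in two variables -/
abbrev Idx (n : ℕ) := (i : Fin (n + 1)) × Fin (i.val + 1)

lemma card_Idx (n : ℕ) : Fintype.card (Idx n) = (n + 2).choose 2 := by
  rw [Fintype.card_sigma]
  simp only [Fintype.card_fin]
  rw [Fin.sum_univ_eq_sum_range (fun i => i + 1) (n + 1)]
  induction n with
  | zero => rfl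
  | succ n ih =>
    rw [Finset.sum_range_succ, ih, Nat.choose_succ_succ' (n + 2) 1, Nat.choose_one_right]
    ring

/-- coefficient map -/
noncomputable def psi (n : ℕ) : Rg K →ₗ[K] ((Fin n → K) × (Idx n → K)) where
  toFun p := (fun i => coeff (Finsupp.single 0 (i.val + 1)) (fA p),
    fun t => coeff (Finsupp.single 0 t.2.val + Finsupp.single 1 (t.1.val - t.2.val)) (fB p))
  map_add' p q := by
    ext t <;> simp
  map_smul' c p := by
    ext t <;> simp

lemma psi_fst (n : ℕ) (p : Rg K) (i : Fin n) :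
    (psi n p).1 i = coeff (Finsupp.single 0 (i.val + 1)) (fA p) := rfl

lemma psi_snd (n : ℕ) (p : Rg K) (t : Idx n) :
    (psi n p).2 t = coeff (Finsupp.single 0 t.2.val + Finsupp.single 1 (t.1.val - t.2.val))
      (fB p) := rfl

lemma eq_single1 (d : Fin 1 →₀ ℕ) : d = Finsupp.single 0 (d 0) := by
  refine Finsupp.ext fun i => ?_
  fin_cases i; simp

lemma eq_single2 (d : Fin 2 →₀ ℕ) : d = Finsupp.single 0 (d 0) + Finsupp.single 1 (d 1) := by
  refine Finsupp.ext fun i => ?_
  fin_cases i <;> simp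

lemma deg1 (d : Fin 1 →₀ ℕ) : d.degree = d 0 := by
  rw [Finsupp.degree_eq_sum]; simp

lemma deg2 (d : Fin 2 →₀ ℕ) : d.degree = d 0 + d 1 := by
  rw [Finsupp.degree_eq_sum]; simp [Fin.sum_univ_two]

lemma ker_psi (n : ℕ) : LinearMap.ker (psi (K := K) n) = (F (n + 1)).restrictScalars K := by
  ext p
  rw [LinearMap.mem_ker, Submodule.restrictScalars_mem, mem_F]
  constructor
  · intro h
    have h1 : ∀ i : Fin n, coeff (Finsupp.single 0 (i.val + 1)) (fA p) = 0 := by
      intro i
      rw [← psi_fst, h]; rfl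
    have h2 : ∀ t : Idx n, coeff (Finsupp.single 0 t.2.val + Finsupp.single 1 (t.1.val - t.2.val))
        (fB p) = 0 := by
      intro t
      rw [← psi_snd, h]; rfl
    have hB : ∀ d : Fin 2 →₀ ℕ, d.degree < n + 1 → coeff d (fB p) = 0 := by
      intro d hd
      rw [deg2] at hd
      have := h2 ⟨⟨d 0 + d 1, hd⟩, ⟨d 0, by simp⟩⟩
      simp only [add_tsub_cancel_left] at this
      rw [eq_single2 d]
      simpa using this
    refine ⟨nat_le_order fun d hd => ?_, nat_le_order hB⟩
    rw [deg1] at hd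
    rw [eq_single1 d]
    rcases Nat.eq_zero_or_pos (d 0) with h0 | h0
    · rw [h0, Finsupp.single_zero]
      change constantCoeff (fA p) = 0
      rw [const_eq]
      exact hB 0 (by simp)
    · obtain ⟨j, hj⟩ : ∃ j, d 0 = j + 1 := ⟨d 0 - 1, by omega⟩
      rw [hj]
      exact h1 ⟨j, by omega⟩
  · rintro ⟨hA, hB⟩
    ext t
    · rw [psi_fst]
      apply coeff_of_lt_order
      refine lt_of_lt_of_le ?_ hA
      rw [deg1]
      simp only [Finsupp.single_eq_same]
      exact_mod_cast (by omega : t.val + 1 < n + 1)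
    · rw [psi_snd]
      apply coeff_of_lt_order
      refine lt_of_lt_of_le ?_ hB
      rw [deg2]
      have h1 := t.1.2
      have h2 := t.2.2
      rw [Nat.cast_lt]
      simp only [Finsupp.coe_add, Pi.add_apply, Finsupp.single_eq_same, ne_eq, zero_ne_one,
        not_false_eq_true, Finsupp.single_eq_of_ne, add_zero, one_ne_zero, zero_add]
      omega

lemma psi_surj (n : ℕ) : Function.Surjective (psi (K := K) n) := by
  rintro ⟨u, v⟩
  let g : B K := fun m => if h : m 0 + m 1 < n + 1 then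
    v ⟨⟨m 0 + m 1, h⟩, ⟨m 0, by simp⟩⟩ else 0
  let f : A K := fun m => if m 0 = 0 then v ⟨⟨0, by omega⟩, ⟨0, by simp⟩⟩ else
    if h : m 0 - 1 < n then u ⟨m 0 - 1, h⟩ else 0
  have hg : ∀ m, coeff m g = if h : m 0 + m 1 < n + 1 then
    v ⟨⟨m 0 + m 1, h⟩, ⟨m 0, by simp⟩⟩ else 0 := fun m => rfl
  have hf : ∀ m, coeff m f = if m 0 = 0 then v ⟨⟨0, by omega⟩, ⟨0, by simp⟩⟩ else
    if h : m 0 - 1 < n then u ⟨m 0 - 1, h⟩ else 0 := fun m => rfl
  refine ⟨mk f g ?_, ?_⟩
  · rw [← coeff_zero_eq_constantCoeff_apply, ← coeff_zero_eq_constantCoeff_apply, hf, hg]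
    simp
  · ext t
    · rw [psi_fst, fA_mk, hf]
      simp
    · rw [psi_snd, fB_mk, hg]
      obtain ⟨⟨i, hi⟩, ⟨j, hj⟩⟩ := t
      simp only at hj
      have key : ∀ (d : Fin 2 →₀ ℕ) (h0 : d 0 = j) (h1 : d 0 + d 1 = i) (h : d 0 + d 1 < n + 1),
        v ⟨⟨d 0 + d 1, h⟩, ⟨d 0, by simp⟩⟩ = v ⟨⟨i, hi⟩, ⟨j, hj⟩⟩ := by
        intro d h0 h1 h
        subst h0 h1
        rfl
      have e0 : (Finsupp.single (0 : Fin 2) j + Finsupp.single 1 (i - j) : Fin 2 →₀ ℕ) 0 = j := by
        simp
      have e1 : (Finsupp.single (0 : Fin 2) j + Finsupp.single 1 (i - j) : Fin 2 →₀ ℕ) 0 +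
          (Finsupp.single (0 : Fin 2) j + Finsupp.single 1 (i - j) : Fin 2 →₀ ℕ) 1 = i := by
        simp
        omega
      simp only
      rw [dif_pos (by rw [e1]; exact hi)]
      exact key _ e0 e1 _

section general

open IsLocalRing

variable {R : Type} [CommRing R] [Algebra K R] [IsLocalRing R] {N : ℕ} {x : Fin N → R}

lemma length_general (S : Lech.Setting K R x) (J : Ideal R) {V : Type} [AddCommGroup V]
    [Module K V] [Module.Finite K V] (ψ : R →ₗ[K] V) (hs : Function.Surjective ψ)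
    (hk : LinearMap.ker ψ = J.restrictScalars K) :
    Module.length R (R ⧸ J) = ((Module.finrank K V : ℕ) : ℕ∞) := by
  have e1 : (R ⧸ J) ≃ₗ[K] V :=
    ((Submodule.Quotient.restrictScalarsEquiv K J).symm.trans
      (Submodule.quotEquivOfEq _ _ hk.symm)).trans (ψ.quotKerEquivOfSurjective hs)
  have hfin : Module.Finite K (R ⧸ J) := Module.Finite.equiv e1.symm
  rw [← LinearEquiv.finrank_eq e1]
  have h1 := IsLocalRing.length_restrictScalars K R (R ⧸ J)
  have hs : Function.Surjective (algebraMap K (ResidueField R)) := by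
    intro y
    obtain ⟨r, rfl⟩ := IsLocalRing.residue_surjective y
    obtain ⟨c, hc⟩ := S.resid r
    refine ⟨c, ?_⟩
    have h2 : residue R (r - algebraMap K R c) = 0 := (residue_eq_zero_iff _).mpr hc
    rw [map_sub, sub_eq_zero] at h2
    rw [h2]
    rfl
  have h3 : Module.length K (ResidueField R) = 1 := by
    have h4 := Module.length_eq_of_surjective (M := ResidueField R) hs
    rw [h4]
    exact Module.length_eq_one _ _
  have h5 : Module.length (ResidueField K) (ResidueField R) = 1 := by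
    have h4 : Module.length K (ResidueField R) =
        Module.length (ResidueField K) (ResidueField R) :=
      Module.length_eq_of_surjective (M := ResidueField R) (residue_surjective (R := K))
    rw [← h4, h3]
  rw [h5, mul_one, Module.length_eq_finrank] at h1
  exact h1.symm

end general

lemma setting : Lech.Setting K (Rg K) (gen (K := K)) where
  span_eq := by rw [span_gen, maxIdeal_eq]
  resid := by
    intro r
    refine ⟨constantCoeff (fA r), ?_⟩
    rw [maxIdeal_eq, mem_F, Nat.cast_one, one_le_order_iff_constCoeff_eq_zero,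
      one_le_order_iff_constCoeff_eq_zero, ← const_eq, and_self, map_sub, AlgHom.commutes,
      map_sub, MvPowerSeries.algebraMap_apply]
    simp

open Filter in
theorem final_abs {R : Type} [CommRing R] [Algebra K R] [IsNoetherianRing R] [IsLocalRing R]
    (hred : IsReduced (AdicCompletion (IsLocalRing.maximalIdeal R) R))
    (hdim : ringKrullDim R = ((2 : ℕ) : WithBot ℕ∞) ∨ ringKrullDim R = ((3 : ℕ) : WithBot ℕ∞))
    (F : ℕ → Ideal R)
    (hF : ∀ (n : ℕ) (x : R), x ∈ F n ↔
      ∃ k : ℕ, 0 < k ∧ ∃ a : ℕ → R,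
        (∀ j, a j ∈ ((IsLocalRing.maximalIdeal R) ^ n) ^ j) ∧
          x ^ k + ∑ j ∈ Finset.range k, a (k - j) * x ^ j = 0)
    {N : ℕ} {x : Fin N → R} (S : Lech.Setting K R x)
    (hlen : ∀ n, ∃ ψ : R →ₗ[K] ((Fin n → K) × (Idx n → K)), Function.Surjective ψ ∧
      LinearMap.ker ψ = (F (n + 1)).restrictScalars K) :
    ¬ (∀ (R : Type) [CommRing R] [IsNoetherianRing R] [IsLocalRing R],
      IsReduced (AdicCompletion (IsLocalRing.maximalIdeal R) R) →
      ∀ (d : ℕ), ringKrullDim R = (d : WithBot ℕ∞) → 0 < d →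
      ∀ (I : Ideal R), I.radical = IsLocalRing.maximalIdeal R →
      ∀ (Ibar : ℕ → Ideal R),
        (∀ (n : ℕ) (x : R), x ∈ Ibar n ↔
          ∃ k : ℕ, 0 < k ∧ ∃ a : ℕ → R, (∀ j, a j ∈ (I ^ n) ^ j) ∧
            x ^ k + ∑ j ∈ Finset.range k, a (k - j) * x ^ j = 0) →
      ∀ (e : ℕ → ℚ),
        (∀ᶠ n in Filter.atTop, ∃ m : ℕ,
          Module.length R (R ⧸ Ibar (n + 1)) = (m : ℕ∞) ∧
          (m : ℚ) = ∑ i ∈ Finset.range (d + 1),
            (-1 : ℚ) ^ i * e i * (((n + d - i).choose (d - i) : ℕ) : ℚ)) →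
        0 ≤ e 1) := by
  intro H
  have hL : ∀ n, Module.length R (R ⧸ F (n + 1)) = ((n + (n + 2).choose 2 : ℕ) : ℕ∞) := by
    intro n
    obtain ⟨ψ, h1, h2⟩ := hlen n
    rw [length_general S _ ψ h1 h2, Module.finrank_prod,
      Module.finrank_pi, Module.finrank_pi, card_Idx, Fintype.card_fin]
  have hrad : (IsLocalRing.maximalIdeal R).radical = IsLocalRing.maximalIdeal R :=
    (IsLocalRing.maximalIdeal.isMaximal R).isPrime.isRadical.radical
  rcases hdim with hd | hd
  · have := H R hred 2 hd (by norm_num) _ hrad F hF (fun i => if i = 0 then 1 else -1)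
      (Eventually.of_forall fun n => ⟨_, hL n, ?_⟩)
    · norm_num at this
    · simp only [Finset.sum_range_succ, Finset.sum_range_zero]
      simp
      ring
  · have := H R hred 3 hd (by norm_num) _ hrad F hF
      (fun i => if i = 0 then 0 else if i = 1 then -1 else 1)
      (Eventually.of_forall fun n => ⟨_, hL n, ?_⟩)
    · norm_num at this
    · simp only [Finset.sum_range_succ, Finset.sum_range_zero]
      simp
      ring

end Pool.Agent.TH206.VNC
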